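import Pool.Agent.Y825.IB.Chain

/-!
Continuum many nonelementary inclusive varieties of semilattices, ordered like the real numbers.

For `m ≤ r` let `SArc r m` be the semilattice of the arcs with at most `m + 1` points of the cyclic
group `ZMod (2 r + 1)`, and the empty set. For a real number `θ` with `1/3 < θ ≤ 1/2` let `law θ` be
the inclusion: `x₁ x₂ x₃` is one of `x₁ x₂`, `x₂ x₃`, `x₁ x₃`, or, for some `N, k` with
`1/3 ≤ k/N < θ`, a product of `k + 1` cyclically consecutive letters of an `N`-cycle of letters (a
new one for every pair `(N, k)`) in which `x₁, x₂, x₃` have the positions `0, k, 2 k`. It holds in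
`SArc r m` if `m / (2 r + 1) < θ`; and in an ultraproduct of such semilattices with
`m / (2 r + 1)` tending to `θ` it fails (`Y825/IB/Arcs.lean`, `Y825/IB/Chain.lean`).
-/

set_option autoImplicit false

namespace Pool.Agent.Results.MP_a762d4_al.RealChain

open Pool.Agent.Results.MP_a762d4_al.NonelementaryBands

universe u

/-- **Continuum many nonelementary inclusive varieties of semilattices, ordered like the reals.** For
every real number `x` there is a nonelementary inclusive variety `F x` of semilattices such that
`F x` is strictly contained in `F y` whenever `x < y`; moreover `F x` and `F y` already differ in a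
finite semilattice. -/
theorem result : ∃ F : ℝ → SemigroupClass.{u},
    (∀ x, IsInclusiveVariety (F x) ∧ ¬ IsElementary (F x) ∧
      ∀ (S : Type u) [Semigroup S], F x S →
        (∀ a : S, a * a = a) ∧ ∀ a b : S, a * b = b * a) ∧
    ∀ x y, x < y → (∀ (S : Type u) [Semigroup S], F x S → F y S) ∧
      ∃ (S : Type u) (_ : Semigroup S), Finite S ∧ F y S ∧ ¬ F x S := by
  refine ⟨fun x => Y825.IB.K (Y825.IB.par x), fun x => ⟨Y825.IB.K_isInclusiveVariety _,
    Y825.IB.K_nonelementary (Y825.IB.par_mem x).1 (Y825.IB.par_mem x).2, ?_⟩,
    fun x y hxy => ⟨?_, ?_⟩⟩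
  · intro S _ hS
    exact Y825.IB.K_semilattice _ S hS
  · intro S _ hS
    exact Y825.IB.K_mono (Y825.IB.par_lt hxy).le S hS
  · obtain ⟨r, m, h1, h2⟩ := Y825.IB.K_strict.{u} hxy
    exact ⟨Y825.IB.USArc.{u} r m, inferInstance, inferInstance, h1, h2⟩

end Pool.Agent.Results.MP_a762d4_al.RealChain
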